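import Pool.Agent.U945.FD.Core

set_option autoImplicit false

/-!
# Finitely generated groups of points of a torus and algebraic subsets of the torus
-/

namespace Pool.Agent.U945.TS

open Finset MvPolynomial
open Pool.Agent.N449.SP (Pm ue_ratio ue_numberField UE)

/-- transfer of vanishing sums -/
theorem transfer {K F ι : Type} [Field K] [Field F] (τ : K →+* F) (R : Set K) (f : ι → K)
    (g : ι → F) (n : ℕ) : ∀ J : Finset ι, J.card = n → (∀ i ∈ J, f i ≠ 0) →
    (∀ J₁ ⊆ J, (∀ J' ⊆ J₁, J'.Nonempty → ∑ i ∈ J', f i = 0 → J' = J₁) → ∑ i ∈ J₁, f i = 0 →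
      ∀ i ∈ J₁, ∀ j ∈ J₁, f i / f j ∈ R) →
    (∀ i ∈ J, ∀ j ∈ J, f i / f j ∈ R → g i * τ (f j) = g j * τ (f i)) →
    ∑ i ∈ J, f i = 0 → ∑ i ∈ J, g i = 0 := by
  classical
  induction n using Nat.strong_induction_on with
  | _ n ih =>
    intro J hJ hf0 hR hg hs
    rcases J.eq_empty_or_nonempty with rfl | ⟨i₀, hi₀⟩
    · rfl
    -- a minimal vanishing subset which contains `i₀`
    obtain ⟨J₁, hJ₁, hi₁, hs₁, hmin⟩ := Pool.Agent.N449.SP.exists_min f (fun J => i₀ ∈ J) J hi₀ hs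
    have hmin' : ∀ J' ⊆ J₁, J'.Nonempty → ∑ o ∈ J', f o = 0 → J' = J₁ := by
      intro J' hJ' hne hs'
      by_cases h : i₀ ∈ J'
      · exact hmin J' hJ' h hs'
      · exfalso
        have h2 : J₁ \ J' = J₁ := by
          refine hmin _ Finset.sdiff_subset (Finset.mem_sdiff.2 ⟨hi₁, h⟩) ?_
          have := Finset.sum_sdiff (f := f) hJ'
          rw [hs', hs₁, add_zero] at this
          exact this
        obtain ⟨o, ho⟩ := hne
        have h3 := hJ' ho
        rw [← h2, Finset.mem_sdiff] at h3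
        exact h3.2 ho
    have hratio := hR J₁ hJ₁ hmin' hs₁
    have hτ0 : τ (f i₀) ≠ 0 := by
      rw [map_ne_zero]
      exact hf0 i₀ hi₀
    have h1 : ∑ i ∈ J₁, g i = 0 := by
      have h2 : (∑ i ∈ J₁, g i) * τ (f i₀) = g i₀ * τ (∑ i ∈ J₁, f i) := by
        rw [Finset.sum_mul, map_sum, Finset.mul_sum]
        exact Finset.sum_congr rfl fun i hi => hg i (hJ₁ hi) i₀ hi₀ (hratio i hi i₀ hi₁)
      rw [hs₁, map_zero, mul_zero] at h2
      exact (mul_eq_zero.1 h2).resolve_right hτ0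
    have hcard : (J \ J₁).card < n := by
      rw [← hJ]
      refine Finset.card_lt_card ⟨Finset.sdiff_subset, fun h => ?_⟩
      have := h (hJ₁ hi₁)
      rw [Finset.mem_sdiff] at this
      exact this.2 hi₁
    have h3 := ih _ hcard (J \ J₁) rfl (fun i hi => hf0 i (Finset.mem_sdiff.1 hi).1)
      (fun J' hJ' => hR J' (hJ'.trans Finset.sdiff_subset))
      (fun i hi j hj => hg i (Finset.mem_sdiff.1 hi).1 j (Finset.mem_sdiff.1 hj).1) (by
        have := Finset.sum_sdiff (f := f) hJ₁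
        rw [hs, hs₁, add_zero] at this
        exact this)
    rw [← Finset.sum_sdiff hJ₁, h3, h1, add_zero]

/-- the character with exponents `m` -/
def chr {F : Type} [Field F] {d : ℕ} (m : Fin d → ℤ) (z : Fin d → F) : F := ∏ i, z i ^ m i

lemma chr_sub {F : Type} [Field F] {d : ℕ} {z : Fin d → F} (hz : ∀ i, z i ≠ 0)
    (α β : Fin d →₀ ℕ) : chr (fun i => (α i : ℤ) - β i) z * ∏ i, z i ^ β i = ∏ i, z i ^ α i := by
  unfold chr
  rw [← Finset.prod_mul_distrib]
  refine Finset.prod_congr rfl fun i _ => ?_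
  rw [zpow_sub₀ (hz i), zpow_natCast, zpow_natCast, div_mul_cancel₀ _ (pow_ne_zero _ (hz i))]

/-- **Cosets.** The points of a finitely generated group `Γ` on an algebraic subset of the torus over
a number field are contained in finitely many cosets of algebraic subgroups in the subset. -/
theorem cosets {K : Type} [Field K] [NumberField K] {d s : ℕ} (Γ : Subgroup (Fin d → Kˣ))
    (hΓ : Γ.FG) (P : Fin s → MvPolynomial (Fin d) K) :
    ∃ T : Finset ((Fin d → Kˣ) × Finset (Fin d → ℤ)),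
      (∀ t ∈ T, t.1 ∈ Γ ∧ ∀ (F : Type) [Field F] (τ : K →+* F) (z : Fin d → F), (∀ i, z i ≠ 0) →
        (∀ m ∈ t.2, chr m z = chr m (fun i => τ (t.1 i : K))) → ∀ j, eval₂ τ z (P j) = 0) ∧
      ∀ x ∈ Γ, (∀ j, eval (fun i => (x i : K)) (P j) = 0) → ∃ t ∈ T, ∀ m ∈ t.2,
        chr m (fun i => (x i : K)) = chr m (fun i => (t.1 i : K)) := by
  classical
  -- the group generated by coordinates and coefficients
  obtain ⟨T₀, hT₀⟩ := hΓ
  set cf : Finset Kˣ := (univ : Finset (Fin s)).biUnion (fun j => ((P j).support.attach).image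
    (fun α => Units.mk0 ((P j).coeff α.1) (mem_support_iff.1 α.2))) with hcf
  set S₁ : Finset Kˣ := (T₀ ×ˢ (univ : Finset (Fin d))).image (fun q => q.1 q.2) ∪ cf with hS₁
  set G : Subgroup Kˣ := Subgroup.closure (S₁ : Set Kˣ) with hG
  have hGfg : G.FG := ⟨S₁, rfl⟩
  have hcoord : ∀ x ∈ Γ, ∀ i, x i ∈ G := by
    intro x hx i
    rw [← hT₀] at hx
    induction hx using Subgroup.closure_induction with
    | mem y hy =>
      apply Subgroup.subset_closure
      rw [Finset.mem_coe, hS₁, Finset.mem_union, Finset.mem_image]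
      exact Or.inl ⟨(y, i), Finset.mem_product.2 ⟨hy, mem_univ i⟩, rfl⟩
    | one => exact one_mem _
    | mul a b _ _ ha hb => exact mul_mem ha hb
    | inv a _ ha => exact inv_mem ha
  have hcoef : ∀ j, ∀ α ∈ (P j).support, ∃ u ∈ G, ((u : Kˣ) : K) = (P j).coeff α := by
    intro j α hα
    refine ⟨Units.mk0 ((P j).coeff α) (mem_support_iff.1 hα), Subgroup.subset_closure ?_, rfl⟩
    rw [Finset.mem_coe, hS₁, Finset.mem_union, hcf, Finset.mem_biUnion]
    exact Or.inr ⟨j, mem_univ j, Finset.mem_image.2 ⟨⟨α, hα⟩, Finset.mem_attach _ _, rfl⟩⟩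
  set N : ℕ := ∑ j, (P j).support.card with hN
  obtain ⟨R, hR⟩ := ue_ratio (Pm G) (ue_numberField K G hGfg) N
  -- the terms
  set f : (Fin d → Kˣ) → Fin s → (Fin d →₀ ℕ) → K := fun x j α =>
    (P j).coeff α * ∏ i, (x i : K) ^ α i with hf
  have hx0 : ∀ (x : Fin d → Kˣ) i, (x i : K) ≠ 0 := fun x i => (x i).ne_zero
  have hf0 : ∀ x j, ∀ α ∈ (P j).support, f x j α ≠ 0 := fun x j α hα =>
    mul_ne_zero (mem_support_iff.1 hα) (Finset.prod_ne_zero_iff.2 fun i _ => pow_ne_zero _ (hx0 x i))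
  have hfG : ∀ x ∈ Γ, ∀ j, ∀ α ∈ (P j).support, f x j α ∈ Pm G := by
    intro x hx j α hα
    obtain ⟨u, hu, hu'⟩ := hcoef j α hα
    refine ⟨u * ∏ i, x i ^ α i, mul_mem hu (Subgroup.prod_mem _ fun i _ =>
      Subgroup.pow_mem _ (hcoord x hx i) _), Or.inl ?_⟩
    rw [Units.val_mul, hu', Units.coe_prod, hf]
    congr 1
  -- the index set of the pairs of terms and the types
  set I : Type := (j : Fin s) × ((P j).support × (P j).support) with hI
  have hIf : Fintype I := inferInstance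
  set typ : (Fin d → Kˣ) → I → Option R := fun x q =>
    if h : f x q.1 q.2.1 / f x q.1 q.2.2 ∈ R then some ⟨_, h⟩ else none with htyp
  have htyp_some : ∀ x (q : I), typ x q ≠ none → f x q.1 q.2.1 / f x q.1 q.2.2 ∈ R := by
    intro x q h
    by_contra hcon
    apply h
    rw [htyp]
    exact dif_neg hcon
  have htyp_eq : ∀ x y (q : I), typ x q ≠ none → typ x q = typ y q →
      f x q.1 q.2.1 / f x q.1 q.2.2 = f y q.1 q.2.1 / f y q.1 q.2.2 := by
    intro x y q h he
    have h1 := htyp_some x q h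
    have h2 := htyp_some y q (he ▸ h)
    rw [htyp] at he
    dsimp only at he
    rw [dif_pos h1, dif_pos h2] at he
    have := Option.some.inj he
    exact congrArg (fun r : R => (r : K)) this
  have htyp_mem : ∀ x (q : I), f x q.1 q.2.1 / f x q.1 q.2.2 ∈ R → typ x q ≠ none := by
    intro x q h
    rw [htyp]
    dsimp only
    rw [dif_pos h]
    exact Option.some_ne_none _
  set Z : Set (Fin d → Kˣ) := {x | x ∈ Γ ∧ ∀ j, eval (fun i => (x i : K)) (P j) = 0} with hZ
  set Ty : Set (I → Option R) := typ '' Z with hTy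
  have hTyf : Ty.Finite := Set.toFinite _
  have hrep : ∀ ty : I → Option R, ∃ y : Fin d → Kˣ, ty ∈ Ty → y ∈ Z ∧ typ y = ty := by
    intro ty
    by_cases h : ty ∈ Ty
    · obtain ⟨y, hy, hy'⟩ := h
      exact ⟨y, fun _ => ⟨hy, hy'⟩⟩
    · exact ⟨1, fun h' => absurd h' h⟩
  choose rep hrep using hrep
  set M : (I → Option R) → Finset (Fin d → ℤ) := fun ty =>
    ((univ : Finset I).filter (fun q => ty q ≠ none)).image
      (fun q i => ((q.2.1 : Fin d →₀ ℕ) i : ℤ) - (q.2.2 : Fin d →₀ ℕ) i) with hM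
  have heval : ∀ x j, eval (fun i => (x i : K)) (P j) = ∑ α ∈ (P j).support, f x j α := by
    intro x j
    rw [eval_eq']
  refine ⟨hTyf.toFinset.image (fun ty => (rep ty, M ty)), ?_, ?_⟩
  · intro t ht
    rw [Finset.mem_image] at ht
    obtain ⟨ty, hty, rfl⟩ := ht
    rw [Set.Finite.mem_toFinset] at hty
    obtain ⟨hyZ, hyt⟩ := hrep ty hty
    set y := rep ty with hy
    refine ⟨hyZ.1, fun F _ τ z hz hm j => ?_⟩
    rw [eval₂_eq']
    refine transfer τ (R : Set K) (f y j)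
      (fun α => τ ((P j).coeff α) * ∏ i, z i ^ α i) _ (P j).support rfl (hf0 y j) ?_ ?_ ?_
    · intro J₁ hJ₁ hmin hs₁
      exact hR _ (f y j) J₁ ((Finset.card_le_card hJ₁).trans
        (Finset.single_le_sum (f := fun j => (P j).support.card) (fun _ _ => Nat.zero_le _)
          (mem_univ j))) (fun α hα => hfG y hyZ.1 j α (hJ₁ hα)) hs₁
        (fun J' hJ' hne hs' => hmin J' hJ' hne hs')
    · intro α hα β hβ hr
      have h1 : typ y ⟨j, ⟨⟨α, hα⟩, ⟨β, hβ⟩⟩⟩ ≠ none := htyp_mem y ⟨j, ⟨⟨α, hα⟩, ⟨β, hβ⟩⟩⟩ hr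
      have h2 := hm (fun i => (α i : ℤ) - β i) (by
        rw [hM]
        dsimp only
        rw [Finset.mem_image]
        refine ⟨⟨j, ⟨⟨α, hα⟩, ⟨β, hβ⟩⟩⟩, ?_, rfl⟩
        rw [Finset.mem_filter]
        exact ⟨mem_univ _, by rw [← hyt]; exact h1⟩)
      have hτy : ∀ i, τ (y i : K) ≠ 0 := fun i => by rw [map_ne_zero]; exact hx0 y i
      have h3 := chr_sub hz α β
      have h4 := chr_sub hτy α β
      rw [h2] at h3
      have h5 : (∏ i, z i ^ α i) * ∏ i, τ (y i : K) ^ β i =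
          (∏ i, z i ^ β i) * ∏ i, τ (y i : K) ^ α i := by
        rw [← h3, ← h4]
        ring
      rw [hf]
      simp only [map_mul, map_prod, map_pow]
      linear_combination (τ ((P j).coeff α) * τ ((P j).coeff β)) * h5
    · rw [← heval]
      exact hyZ.2 j
  · intro x hx hxZ
    have hty : typ x ∈ Ty := ⟨x, ⟨hx, hxZ⟩, rfl⟩
    obtain ⟨hyZ, hyt⟩ := hrep _ hty
    refine ⟨(rep (typ x), M (typ x)), Finset.mem_image.2 ⟨typ x, by
      rw [Set.Finite.mem_toFinset]; exact hty, rfl⟩, ?_⟩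
    dsimp only
    set y := rep (typ x) with hy
    intro m hm
    rw [hM] at hm
    dsimp only at hm
    rw [Finset.mem_image] at hm
    obtain ⟨q, hq, rfl⟩ := hm
    rw [Finset.mem_filter] at hq
    have h1 := htyp_eq x y q hq.2 (by rw [hyt])
    obtain ⟨j, ⟨⟨α, hα⟩, ⟨β, hβ⟩⟩⟩ := q
    dsimp only at h1 ⊢
    have hb : (∏ i, (x i : K) ^ β i) ≠ 0 :=
      Finset.prod_ne_zero_iff.2 fun i _ => pow_ne_zero _ (hx0 x i)
    have hb' : (∏ i, (y i : K) ^ β i) ≠ 0 :=
      Finset.prod_ne_zero_iff.2 fun i _ => pow_ne_zero _ (hx0 y i)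
    have hc : (P j).coeff α / (P j).coeff β ≠ 0 :=
      div_ne_zero (mem_support_iff.1 hα) (mem_support_iff.1 hβ)
    rw [hf] at h1
    dsimp only at h1
    rw [mul_div_mul_comm, mul_div_mul_comm] at h1
    have h2 := mul_left_cancel₀ hc h1
    have h3 := chr_sub (hx0 x) α β
    have h4 := chr_sub (hx0 y) α β
    rw [← h3, ← h4, mul_div_cancel_right₀ _ hb, mul_div_cancel_right₀ _ hb'] at h2
    exact h2

end Pool.Agent.U945.TS
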