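import Mathlib

set_option autoImplicit false

/-!
# Groups of finite rank of points of a torus over a number field are finitely generated
-/

namespace Pool.Agent.U945.TS

open Finset NumberField Height

/-- **Groups of finite rank of points over a number field are finitely generated.** -/
theorem fg_of_rank {K : Type} [Field K] [NumberField K] {d : ℕ} (Γ : Subgroup (Fin d → Kˣ)) (N : ℕ)
    (h : ∀ (n : ℕ) (X : Fin n → Fin d → Kˣ), (∀ j, X j ∈ Γ) →
      (∀ k : Fin n → ℤ, ∏ j, X j ^ k j = 1 → k = 0) → n ≤ N) : Γ.FG := by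
  classical
  set A : Set ℕ := {n | ∃ X : Fin n → Fin d → Kˣ, (∀ j, X j ∈ Γ) ∧
    ∀ k : Fin n → ℤ, ∏ j, X j ^ k j = 1 → k = 0} with hA
  have hAf : A.Finite := (Set.finite_Iic N).subset (fun n ⟨x, hx, hx'⟩ => h n x hx hx')
  have hAne : A.Nonempty := ⟨0, Fin.elim0, fun i => i.elim0, fun k _ => Subsingleton.elim _ _⟩
  obtain ⟨n, hn, hmax⟩ := hAf.exists_maximal hAne
  obtain ⟨X, hX, hmi⟩ := hn
  set B : ℝ := ∑ i, ∑ j, logHeight₁ (X j i : K) with hB
  have hnn : ∀ x : K, 0 ≤ logHeight₁ x := fun x => zero_le_logHeight₁ x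
  -- the finite set of small points
  have hS1 : {u : Kˣ | logHeight₁ (u : K) ≤ B}.Finite := by
    have h1 : {x : K | logHeight₁ x ≤ B}.Finite :=
      Northcott.finite_le (h := fun x : K => logHeight₁ x) B
    exact Set.Finite.preimage (f := fun u : Kˣ => (u : K)) (fun a _ b _ hab => Units.ext hab) h1
  have hS : {y : Fin d → Kˣ | y ∈ Γ ∧ ∀ i, logHeight₁ (y i : K) ≤ B}.Finite :=
    (Set.Finite.pi' (fun _ : Fin d => hS1)).subset (fun y hy i => hy.2 i)
  refine ⟨univ.image X ∪ hS.toFinset, le_antisymm ?_ ?_⟩
  · rw [Subgroup.closure_le]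
    intro y hy
    rw [Finset.mem_coe, Finset.mem_union, Finset.mem_image, Set.Finite.mem_toFinset] at hy
    rcases hy with ⟨j, -, rfl⟩ | hy
    · exact hX j
    · exact hy.1
  · intro y hy
    -- a relation
    have hdep : ∃ m : ℕ, 0 < m ∧ ∃ a : Fin n → ℤ, y ^ m = ∏ j, X j ^ a j := by
      by_contra hcon
      have hmem : n + 1 ∈ A := by
        refine ⟨Fin.snoc X y, fun j => ?_, fun k hk => ?_⟩
        · refine Fin.lastCases ?_ (fun j => ?_) j
          · rw [Fin.snoc_last]; exact hy
          · rw [Fin.snoc_castSucc]; exact hX j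
        · rw [Fin.prod_univ_castSucc] at hk
          simp only [Fin.snoc_castSucc, Fin.snoc_last] at hk
          have hl : k (Fin.last n) = 0 := by
            by_contra hl
            apply hcon
            have h1 : y ^ k (Fin.last n) = ∏ j : Fin n, X j ^ (-k j.castSucc) := by
              have h2 : ∏ j : Fin n, X j ^ (-k j.castSucc) = (∏ j : Fin n, X j ^ k j.castSucc)⁻¹ := by
                rw [← Finset.prod_inv_distrib]
                exact Finset.prod_congr rfl fun j _ => zpow_neg _ _
              rw [h2]
              exact eq_inv_of_mul_eq_one_right hk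
            rcases Int.natAbs_eq (k (Fin.last n)) with h3 | h3
            · refine ⟨(k (Fin.last n)).natAbs, Int.natAbs_pos.2 hl, fun j => -k j.castSucc, ?_⟩
              rw [h3, zpow_natCast] at h1
              exact h1
            · refine ⟨(k (Fin.last n)).natAbs, Int.natAbs_pos.2 hl, fun j => k j.castSucc, ?_⟩
              rw [h3, zpow_neg, zpow_natCast] at h1
              have h4 := congrArg (fun u => u⁻¹) h1
              rw [inv_inv, ← Finset.prod_inv_distrib] at h4
              rw [h4]
              exact Finset.prod_congr rfl fun j _ => by rw [zpow_neg, inv_inv]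
          rw [hl, zpow_zero, mul_one] at hk
          have h5 := hmi (fun j => k j.castSucc) hk
          funext j
          refine Fin.lastCases ?_ (fun j => ?_) j
          · exact hl
          · exact congrFun h5 j
      have := hmax hmem (by omega)
      omega
    obtain ⟨m, hm, a, ha⟩ := hdep
    set y' : Fin d → Kˣ := y * ∏ j, X j ^ (-(a j / m)) with hy'
    have hXc : ∀ j, X j ∈ Subgroup.closure ((univ.image X ∪ hS.toFinset : Finset (Fin d → Kˣ)) :
        Set (Fin d → Kˣ)) := by
      intro j
      apply Subgroup.subset_closure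
      rw [Finset.mem_coe, Finset.mem_union, Finset.mem_image]
      exact Or.inl ⟨j, mem_univ j, rfl⟩
    have hy'Γ : y' ∈ Γ := mul_mem hy (Subgroup.prod_mem _ fun j _ => Subgroup.zpow_mem _ (hX j) _)
    have hpow : y' ^ m = ∏ j, X j ^ (a j % m) := by
      rw [hy', mul_pow, ha, ← Finset.prod_pow, ← Finset.prod_mul_distrib]
      refine Finset.prod_congr rfl fun j _ => ?_
      rw [← zpow_natCast, ← zpow_mul, ← zpow_add]
      congr 1
      have := Int.mul_ediv_add_emod (a j) m
      linarith
    have hsmall : ∀ i, logHeight₁ (y' i : K) ≤ B := by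
      intro i
      have h1 : ((y' i : K)) ^ m = ∏ j, (X j i : K) ^ (a j % m) := by
        have h2 := congrArg (fun u : Fin d → Kˣ => ((u i : Kˣ) : K)) hpow
        rw [Pi.pow_apply, Units.val_pow_eq_pow_val, Finset.prod_apply, Units.coe_prod] at h2
        rw [h2]
        refine Finset.prod_congr rfl fun j _ => ?_
        rw [Pi.pow_apply, Units.val_zpow_eq_zpow_val]
      have h3 : (m : ℝ) * logHeight₁ (y' i : K) ≤ m * ∑ j, logHeight₁ (X j i : K) := by
        rw [← logHeight₁_pow, h1]
        refine (logHeight₁_prod_le _ _).trans ?_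
        rw [Finset.mul_sum]
        refine Finset.sum_le_sum fun j _ => ?_
        rw [logHeight₁_zpow]
        refine mul_le_mul_of_nonneg_right ?_ (hnn _)
        have h4 : 0 ≤ a j % m := Int.emod_nonneg _ (by exact_mod_cast hm.ne')
        have h5 : a j % m < m := Int.emod_lt_of_pos _ (by exact_mod_cast hm)
        have h6 : (a j % m).natAbs ≤ m := by omega
        exact_mod_cast h6
      have hm' : (0 : ℝ) < m := by exact_mod_cast hm
      have h7 : logHeight₁ (y' i : K) ≤ ∑ j, logHeight₁ (X j i : K) :=
        le_of_mul_le_mul_left h3 hm'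
      refine h7.trans ?_
      rw [hB]
      exact Finset.single_le_sum (f := fun i => ∑ j, logHeight₁ (X j i : K))
        (fun i _ => Finset.sum_nonneg fun j _ => hnn _) (mem_univ i)
    have hyy : y = y' * ∏ j, X j ^ (a j / m) := by
      rw [hy', mul_assoc, ← Finset.prod_mul_distrib]
      have : ∏ j, X j ^ (-(a j / m)) * X j ^ (a j / m) = 1 := by
        apply Finset.prod_eq_one
        intro j _
        rw [← zpow_add]
        simp
      rw [this, mul_one]
    rw [hyy]
    refine mul_mem (Subgroup.subset_closure ?_)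
      (Subgroup.prod_mem _ fun j _ => Subgroup.zpow_mem _ (hXc j) _)
    rw [Finset.mem_coe, Finset.mem_union, Set.Finite.mem_toFinset]
    exact Or.inr ⟨hy'Γ, hsmall⟩

end Pool.Agent.U945.TS
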